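import Mathlib
import Pool.Agent.Q157.SG.Top

/-!
# MP_8e29f8_al: the undirected Sylow graph of a product of two normal subgroups

Counterexample: `G = C₃ ≀ T` (regular wreath product) with `T = (5² : SL₂(5)) × 2`, and `A`, `B` the preimages of
`5² × 2` and `5² : SL₂(5)`. The primes `3` and `5` are joined in the graph of `A` and not in the graph of `G`.
-/

set_option autoImplicit false

namespace Pool.Agent.Results.MP_8e29f8_al.NormalProductFails

open Pool.Agent.Q157.SG

/-- There is an arc `p → q` in the Sylow graph of `H`: `q` divides `|N_H(P) : P C_H(P)|` for a Sylow `p`-subgroup `P`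
of `H`. -/
def Arc (H : Type) [Group H] (p q : ℕ) : Prop :=
  ∃ P : Sylow p H, q ∣ ((P : Subgroup H) ⊔ Subgroup.centralizer ((P : Subgroup H) : Set H)).relIndex
    (Subgroup.normalizer ((P : Subgroup H) : Set H))

/-- The edges of the undirected Sylow graph of `H`: two distinct primes joined by an arc in at least one direction. -/
def sylowGraph (H : Type) [Group H] : SimpleGraph ℕ where
  Adj p q := p ≠ q ∧ p.Prime ∧ q.Prime ∧ (Arc H p q ∨ Arc H q p)
  symm := ⟨fun _ _ h => ⟨h.1.symm, h.2.2.1, h.2.1, h.2.2.2.symm⟩⟩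
  loopless := ⟨fun _ h => h.1 rfl⟩

/-- The group `C₃ ≀ T`. -/
abbrev G : Type := RegularWreathProduct (Multiplicative (ZMod 3)) T

/-- The projection to `T`. -/
abbrev π : G →* T := RegularWreathProduct.rightHom

theorem π_surj : Function.Surjective π := fun t => ⟨⟨1, t⟩, rfl⟩

theorem ker_pow (v : G) (hv : v ∈ π.ker) : v ^ 3 = 1 := by
  have h1 : v.right = 1 := hv
  have h2 : ∀ n : ℕ, (v ^ n).left = v.left ^ n ∧ (v ^ n).right = 1 := by
    intro n
    induction n with
    | zero => exact ⟨rfl, rfl⟩
    | succ n ih =>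
      rw [pow_succ]
      constructor
      · rw [RegularWreathProduct.mul_left, ih.1, ih.2]
        funext x
        simp [pow_succ]
      · rw [RegularWreathProduct.mul_right, ih.2, h1, one_mul]
  apply RegularWreathProduct.ext
  · rw [(h2 3).1]
    funext x
    show v.left x ^ 3 = 1
    generalize v.left x = c
    revert c
    decide
  · exact (h2 3).2

theorem ker_pGroup : IsPGroup 3 (π.ker) := by
  intro v
  refine ⟨1, ?_⟩
  apply Subtype.ext
  exact ker_pow v.1 v.2

/-- The kernel contains its centraliser. -/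
theorem cent (g : G) (hg : ∀ v ∈ π.ker, v * g = g * v) : g ∈ π.ker := by
  classical
  let v : G := ⟨fun x => if x = 1 then Multiplicative.ofAdd 1 else 1, 1⟩
  have hv : v ∈ π.ker := by rfl
  have h1 := congrArg RegularWreathProduct.left (hg v hv)
  have h2 := congrFun h1 1
  show g.right = 1
  simp only [RegularWreathProduct.mul_left, v, Pi.mul_apply, inv_one, one_mul, mul_one, if_true] at h2
  by_contra hne
  have h3 : g.right⁻¹ ≠ 1 := fun h => hne (inv_eq_one.1 h)
  rw [if_neg h3, mul_one] at h2
  have h4 : (Multiplicative.ofAdd (1 : ZMod 3)) = 1 := by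
    have : Multiplicative.ofAdd (1 : ZMod 3) * g.left 1 = 1 * g.left 1 := by rw [h2, one_mul]
    exact mul_right_cancel this
  revert h4
  decide

theorem arc_three (A : Subgroup G) (hA : π.ker ≤ A) (h : 5 ∣ Nat.card (A.map π)) (h3 : ¬ 3 ∣ Nat.card (A.map π)) :
    Arc A 3 5 := by
  have hidx : ((π.ker).subgroupOf A).index = Nat.card (A.map π) := by
    show (π.ker).relIndex A = _
    rw [← MonoidHom.comap_bot, Subgroup.relIndex_comap, Subgroup.relIndex_bot_left]
  have hpg : IsPGroup 3 ((π.ker).subgroupOf A) := by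
    intro v
    refine ⟨1, ?_⟩
    apply Subtype.ext
    apply Subtype.ext
    exact ker_pow v.1.1 v.2
  have hnd : ¬ 3 ∣ ((π.ker).subgroupOf A).index := by rwa [hidx]
  refine ⟨hpg.toSylow hnd, ?_⟩
  have hc : (hpg.toSylow hnd : Subgroup A) = (π.ker).subgroupOf A := IsPGroup.toSylow_coe hpg hnd
  rw [hc]
  have hn : Subgroup.normalizer (((π.ker).subgroupOf A : Subgroup A) : Set A) = ⊤ := by
    apply Subgroup.normalizer_eq_top
  rw [hn, Subgroup.relIndex_top_right]
  have hcent : Subgroup.centralizer (((π.ker).subgroupOf A : Subgroup A) : Set A) ≤ (π.ker).subgroupOf A := by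
    intro g hg
    rw [Subgroup.mem_centralizer_iff] at hg
    show (g : G) ∈ π.ker
    apply cent
    intro v hv
    exact congrArg Subtype.val (hg ⟨v, hA hv⟩ hv)
  rw [sup_eq_left.2 hcent, hidx]
  exact h

theorem not_arc_three : ¬ Arc G 3 5 := by
  rintro ⟨P, hP⟩
  have h1 : 5 ∣ Nat.card (Subgroup.normalizer ((P : Subgroup G) : Set G)) :=
    hP.trans (Subgroup.relIndex_dvd_card _ _)
  obtain ⟨n, hn⟩ := exists_prime_orderOf_dvd_card' 5 h1
  have hn5 : (n : G) ^ 5 = 1 := by
    have h0 := pow_orderOf_eq_one n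
    rw [hn] at h0
    exact congrArg Subtype.val h0
  let P' : Sylow 3 T := P.mapSurjective π_surj
  have hP' : (P' : Subgroup T) = (P : Subgroup G).map π := Sylow.coe_mapSurjective π_surj P
  have h2 : π n = 1 := by
    apply norm_three P' (π n)
    · rw [hP']
      exact Subgroup.le_normalizer_map π (Subgroup.mem_map_of_mem π n.2)
    · rw [← map_pow, hn5, map_one]
  have h3 : (n : G) = 1 := eq_one_of_pow (n : G) 3 5 (by norm_num) (ker_pow n h2) hn5
  have h4 : n = 1 := Subtype.ext h3
  rw [h4, orderOf_one] at hn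
  omega

theorem three_element (Q : Sylow 5 T) (t : T) (ht : t ∈ Subgroup.normalizer ((Q : Subgroup T) : Set T)) (k : ℕ)
    (h3 : t ^ 3 ^ k = 1) : t = 1 := by
  induction k with
  | zero => simpa using h3
  | succ k ih =>
    apply ih
    apply norm_five Q _ (Subgroup.pow_mem _ ht _)
    rw [← pow_mul, ← pow_succ]
    exact h3

theorem not_arc_five : ¬ Arc G 5 3 := by
  rintro ⟨Q, hQ⟩
  obtain ⟨N, hN⟩ : ∃ N : Subgroup G, N = Subgroup.normalizer ((Q : Subgroup G) : Set G) := ⟨_, rfl⟩
  obtain ⟨R⟩ : Nonempty (Sylow 3 N) := inferInstance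
  let Q' : Sylow 5 T := Q.mapSurjective π_surj
  have hQ' : (Q' : Subgroup T) = (Q : Subgroup G).map π := Sylow.coe_mapSurjective π_surj Q
  have hR : (R : Subgroup N) ≤
      ((Q : Subgroup G) ⊔ Subgroup.centralizer ((Q : Subgroup G) : Set G)).subgroupOf N := by
    intro y hy
    have hyN : (y : G) ∈ Subgroup.normalizer ((Q : Subgroup G) : Set G) := hN ▸ y.2
    obtain ⟨k, hk⟩ := R.isPGroup' ⟨y, hy⟩
    have hk' : (y : G) ^ 3 ^ k = 1 := by
      have := congrArg (fun z : (R : Subgroup N) => ((z : N) : G)) hk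
      simpa using this
    have hπ : π (y : G) = 1 := by
      apply three_element Q' (π y) _ k
      · rw [← map_pow, hk', map_one]
      · rw [hQ']
        exact Subgroup.le_normalizer_map π (Subgroup.mem_map_of_mem π hyN)
    show (y : G) ∈ (Q : Subgroup G) ⊔ Subgroup.centralizer ((Q : Subgroup G) : Set G)
    apply Subgroup.mem_sup_right
    rw [Subgroup.mem_centralizer_iff]
    intro z hz
    have hdisj : Disjoint (π.ker) (Q : Subgroup G) :=
      IsPGroup.disjoint_of_ne 3 5 (by norm_num) _ _ ker_pGroup Q.isPGroup'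
    have e1 : y * z * (y : G)⁻¹ * z⁻¹ ∈ π.ker := by
      have : (y : G) * (z * (y : G)⁻¹ * z⁻¹) ∈ π.ker :=
        Subgroup.mul_mem _ hπ ((inferInstance : (π.ker).Normal).conj_mem _ (Subgroup.inv_mem _ hπ) z)
      simpa [mul_assoc] using this
    have e2 : y * z * (y : G)⁻¹ * z⁻¹ ∈ (Q : Subgroup G) :=
      Subgroup.mul_mem _ ((Subgroup.mem_normalizer_iff.1 hyN z).1 hz) (Subgroup.inv_mem _ hz)
    have e3 : y * z * (y : G)⁻¹ * z⁻¹ = 1 := Subgroup.disjoint_def.1 hdisj e1 e2
    rw [mul_inv_eq_one, mul_inv_eq_iff_eq_mul] at e3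
    exact e3.symm
  have h1 := Subgroup.index_dvd_of_le hR
  have h2 : 3 ∣ (R : Subgroup N).index := by
    refine Dvd.dvd.trans ?_ h1
    rw [hN]
    exact hQ
  exact R.not_dvd_index h2

/-- The subgroup `5² × 2` of `T`. -/
def TA : Subgroup T := ρ.ker

/-- The subgroup `5² : SL₂(5)` of `T`. -/
def TB : Subgroup T := (MonoidHom.snd T0 (Multiplicative (ZMod 2))).ker

theorem card_TA : Nat.card TA = 50 := by
  have h1 : TA.index = 120 := by
    show (ρ.ker).index = 120
    rw [Subgroup.index_ker, MonoidHom.range_eq_top.2 ρ_surj, ← card_U]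
    exact Nat.card_congr Subgroup.topEquiv.toEquiv
  have h2 := TA.card_mul_index
  rw [h1, card_T] at h2
  omega

/-- MP_8e29f8_al, Q1: there are a finite group `G` and proper normal subgroups `A`, `B` with `G = A B` such that the
undirected Sylow graph of `G` is not the union of those of `A` and `B`. -/
theorem result : ∃ (G : Type) (_ : Group G) (_ : Finite G) (A B : Subgroup G), A.Normal ∧ B.Normal ∧
    A ≠ ⊤ ∧ B ≠ ⊤ ∧ A ⊔ B = ⊤ ∧ sylowGraph G ≠ sylowGraph A ⊔ sylowGraph B := by
  have hmapA : (TA.comap π).map π = TA := Subgroup.map_comap_eq_self_of_surjective π_surj TA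
  have hTA : TA ≠ ⊤ := by
    intro h
    have := card_TA
    rw [h] at this
    have h2 : Nat.card (⊤ : Subgroup T) = 6000 := by
      rw [← card_T]
      exact Nat.card_congr Subgroup.topEquiv.toEquiv
    omega
  have hTB : TB ≠ ⊤ := by
    intro h
    have : ((1, Multiplicative.ofAdd 1) : T) ∈ TB := by rw [h]; trivial
    have h2 : Multiplicative.ofAdd (1 : ZMod 2) = 1 := this
    revert h2
    decide
  have hTAB : TA ⊔ TB = ⊤ := by
    rw [eq_top_iff]
    rintro ⟨a, c⟩ -
    have h1 : ((1, c) : T) ∈ TA := by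
      show ρ (1, c) = 1
      rfl
    have h2 : ((a, 1) : T) ∈ TB := rfl
    have h3 : ((a, c) : T) = (1, c) * (a, 1) := by simp
    rw [h3]
    exact Subgroup.mul_mem_sup h1 h2
  have hnA : TA.Normal := (inferInstance : (ρ.ker).Normal)
  have hnB : TB.Normal := (inferInstance : ((MonoidHom.snd T0 (Multiplicative (ZMod 2))).ker).Normal)
  refine ⟨G, inferInstance, inferInstance, TA.comap π, TB.comap π, hnA.comap π, hnB.comap π, ?_, ?_, ?_, ?_⟩
  · intro h
    apply hTA
    rw [← hmapA, h]
    exact Subgroup.map_top_of_surjective π π_surj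
  · intro h
    apply hTB
    rw [← Subgroup.map_comap_eq_self_of_surjective π_surj TB, h]
    exact Subgroup.map_top_of_surjective π π_surj
  · rw [Subgroup.comap_sup_eq π TA TB π_surj, hTAB]
    rfl
  · intro h
    have h1 : (sylowGraph (TA.comap π) ⊔ sylowGraph (TB.comap π)).Adj 3 5 := by
      left
      refine ⟨by norm_num, by norm_num, by norm_num, Or.inl ?_⟩
      apply arc_three
      · intro v hv
        show π v ∈ TA
        rw [show π v = 1 from hv]
        exact TA.one_mem
      · rw [hmapA, card_TA]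
        norm_num
      · rw [hmapA, card_TA]
        norm_num
    rw [← h] at h1
    rcases h1.2.2.2 with h2 | h2
    · exact not_arc_three h2
    · exact not_arc_five h2

end Pool.Agent.Results.MP_8e29f8_al.NormalProductFails
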